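import Mathlib

/-! # Derivative of the norm: basic facts (module Defs of MP_9e79c9_gt) -/

set_option autoImplicit false
set_option linter.unusedSectionVars false

open MeasureTheory Set Metric Module
open scoped Topology

namespace TC

variable {V : Type*} [NormedAddCommGroup V] [NormedSpace ℝ V]

/-- The derivative of the norm at `x` (zero at points of non-differentiability). -/
noncomputable def ND (x : V) : V →L[ℝ] ℝ := fderiv ℝ (fun y : V => ‖y‖) x

/-- The norm is differentiable at `x`. -/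
def Smooth (x : V) : Prop := DifferentiableAt ℝ (fun y : V => ‖y‖) x

theorem nd_self {x : V} (hx : Smooth x) : ND x x = ‖x‖ :=
  DifferentiableAt.fderiv_norm_self hx

theorem nd_norm_le (x : V) : ‖ND x‖ ≤ 1 := by
  simpa [ND] using norm_fderiv_le_of_lipschitz ℝ (x₀ := x) (lipschitzWith_one_norm (E := V))

theorem nd_abs_le (x z : V) : |ND x z| ≤ ‖z‖ := by
  have := (ND x).le_of_opNorm_le (nd_norm_le x) z
  simpa using this

theorem nd_le (x z : V) : ND x z ≤ ‖z‖ := (le_abs_self _).trans (nd_abs_le x z)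

theorem nd_sub {x : V} (hx : Smooth x) (h : V) : ‖x‖ + ND x h ≤ ‖x + h‖ := by
  have := nd_le x (x + h)
  rw [map_add, nd_self hx] at this
  exact this

theorem nd_smul_pos (x : V) {t : ℝ} (ht : 0 < t) : ND (t • x) = ND x :=
  fderiv_norm_smul_pos ht

theorem nd_neg (x : V) : ND (-x) = - ND x := by
  have := fderiv_norm_smul_neg (x := x) (t := -1) (by norm_num)
  simpa [ND] using this

theorem smooth_smul_iff {x : V} {t : ℝ} (ht : t ≠ 0) : Smooth (t • x) ↔ Smooth x :=
  (differentiableAt_norm_smul ht).symm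

theorem smooth_ne_zero [Nontrivial V] {x : V} (hx : Smooth x) : x ≠ 0 :=
  fun h => not_differentiableAt_norm_zero V (h ▸ hx)

/-- the directional derivative of the norm at a smooth point. -/
theorem nd_hasDeriv {x : V} (hx : Smooth x) (z : V) :
    HasDerivAt (fun t : ℝ => ‖x + t • z‖) (ND x z) 0 := by
  have h1 : HasFDerivAt (fun y : V => ‖y‖) (ND x) (x + (0 : ℝ) • z) := by
    simpa [ND, Smooth] using DifferentiableAt.hasFDerivAt hx
  have h2 : HasDerivAt (fun t : ℝ => x + t • z) z 0 := by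
    simpa using ((hasDerivAt_id (0 : ℝ)).smul_const z).const_add x
  exact h1.comp_hasDerivAt (0 : ℝ) h2

/-- at a smooth point `x`, if `‖x‖ ≤ ‖x + t • z‖` for all `t` then `ND x z = 0`. -/
theorem nd_eq_zero_of_perp {x z : V} (hx : Smooth x) (h : ∀ t : ℝ, ‖x‖ ≤ ‖x + t • z‖) :
    ND x z = 0 := by
  have hm : IsLocalMin (fun t : ℝ => ‖x + t • z‖) 0 := by
    refine Filter.Eventually.of_forall fun t => ?_
    simpa using h t
  exact hm.hasDerivAt_eq_zero (nd_hasDeriv hx z)

/-! ## Birkhoff orthogonality and support functionals -/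

/-- Birkhoff orthogonality: `x` is orthogonal to `y`. -/
def Perp (x y : V) : Prop := ∀ t : ℝ, ‖x‖ ≤ ‖x + t • y‖

/-- `f` is a support functional at `x` (norm at most one, value `‖x‖` at `x`). -/
def Supp (f : V →L[ℝ] ℝ) (x : V) : Prop := ‖f‖ ≤ 1 ∧ f x = ‖x‖

/-- Birkhoff orthogonality is symmetric in `V`. -/
def SymPerp (V : Type*) [NormedAddCommGroup V] [NormedSpace ℝ V] : Prop :=
  ∀ x y : V, Perp x y → Perp y x

theorem Supp.abs_le {f : V →L[ℝ] ℝ} {x : V} (hf : Supp f x) (z : V) : |f z| ≤ ‖z‖ := by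
  have := f.le_of_opNorm_le hf.1 z
  simpa using this

theorem Supp.le {f : V →L[ℝ] ℝ} {x : V} (hf : Supp f x) (z : V) : f z ≤ ‖z‖ :=
  (le_abs_self _).trans (hf.abs_le z)

theorem Supp.perp {f : V →L[ℝ] ℝ} {x y : V} (hf : Supp f x) (hy : f y = 0) : Perp x y := by
  intro t
  have := hf.le (x + t • y)
  rw [map_add, map_smul, hy, hf.2] at this
  simpa using this

theorem Smooth.supp {x : V} (hx : Smooth x) : Supp (ND x) x := ⟨nd_norm_le x, nd_self hx⟩

theorem exists_supp (x : V) : ∃ f : V →L[ℝ] ℝ, Supp f x := by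
  obtain ⟨g, hg, hgx⟩ := exists_dual_vector'' ℝ x
  exact ⟨g, hg, by simpa using hgx⟩

theorem Perp.exists_supp {x y : V} (h : Perp x y) : ∃ f : V →L[ℝ] ℝ, Supp f x ∧ f y = 0 := by
  classical
  by_cases hy : y = 0
  · obtain ⟨f, hf⟩ := TC.exists_supp x
    exact ⟨f, hf, by simp [hy]⟩
  have hcl : IsClosed ((Submodule.span ℝ {y} : Submodule ℝ V) : Set V) :=
    Submodule.closed_of_finiteDimensional _
  haveI : IsClosed ((Submodule.span ℝ {y} : Submodule ℝ V) : Set V) := hcl
  have hq : ‖((Submodule.span ℝ {y}).mkQ x : V ⧸ (Submodule.span ℝ {y}))‖ = ‖x‖ := by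
    apply le_antisymm
    · exact Submodule.Quotient.norm_mk_le _ _
    · by_contra hlt
      push Not at hlt
      obtain ⟨m, hm, hml⟩ := (Submodule.Quotient.norm_mk_lt ((Submodule.span ℝ {y}).mkQ x)
        (sub_pos.2 hlt))
      have h2 : m - x ∈ Submodule.span ℝ {y} := by
        rw [← Submodule.Quotient.eq]
        exact hm
      obtain ⟨t, ht⟩ := Submodule.mem_span_singleton.1 h2
      have h3 : m = x + t • y := by rw [ht]; abel
      have h4 := h t
      rw [← h3] at h4
      linarith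
  obtain ⟨g, hg, hgx⟩ := exists_dual_vector'' ℝ ((Submodule.span ℝ {y}).mkQ x)
  let L : V →ₗ[ℝ] ℝ := g.toLinearMap ∘ₗ (Submodule.span ℝ {y}).mkQ
  have hL : ∀ z : V, ‖L z‖ ≤ 1 * ‖z‖ := by
    intro z
    have h1 : ‖g ((Submodule.span ℝ {y}).mkQ z)‖ ≤ 1 * ‖(Submodule.span ℝ {y}).mkQ z‖ :=
      g.le_of_opNorm_le hg _
    have h2 : ‖((Submodule.span ℝ {y}).mkQ z : V ⧸ (Submodule.span ℝ {y}))‖ ≤ ‖z‖ :=
      Submodule.Quotient.norm_mk_le _ _
    calc ‖L z‖ = ‖g ((Submodule.span ℝ {y}).mkQ z)‖ := rfl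
      _ ≤ 1 * ‖(Submodule.span ℝ {y}).mkQ z‖ := h1
      _ ≤ 1 * ‖z‖ := by gcongr
  refine ⟨L.mkContinuous 1 hL, ⟨LinearMap.mkContinuous_norm_le _ zero_le_one _, ?_⟩, ?_⟩
  · have : L x = ‖x‖ := by
      show g ((Submodule.span ℝ {y}).mkQ x) = ‖x‖
      rw [hgx, hq]; simp
    simpa using this
  · have h0 : (Submodule.span ℝ {y}).mkQ y = 0 := by
      simp
    have : L y = 0 := by
      show g ((Submodule.span ℝ {y}).mkQ y) = 0
      rw [h0, map_zero]
    simpa using this

theorem Perp.smul_left {x y : V} (h : Perp x y) (s : ℝ) : Perp (s • x) y := by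
  intro t
  by_cases hs : s = 0
  · simp [hs]
  have h1 := h (t / s)
  have h2 : s • x + t • y = s • (x + (t / s) • y) := by
    rw [smul_add, smul_smul]; congr 2; field_simp
  rw [h2, norm_smul, norm_smul]
  gcongr

theorem Perp.smul_right {x y : V} (h : Perp x y) (s : ℝ) : Perp x (s • y) := by
  intro t
  rw [smul_smul]
  exact h _

variable [FiniteDimensional ℝ V]

theorem dense_smooth : Dense {x : V | Smooth x} := dense_differentiableAt_norm

theorem exists_smooth_near (p : V) {ε : ℝ} (hε : 0 < ε) : ∃ q : V, ‖q - p‖ < ε ∧ Smooth q := by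
  obtain ⟨q, hq, hd⟩ := (dense_smooth (V := V)).exists_dist_lt p hε
  exact ⟨q, by rwa [← dist_eq_norm, dist_comm], hq⟩

variable [MeasurableSpace V] [BorelSpace V]

theorem measurable_nd : Measurable (ND : V → (V →L[ℝ] ℝ)) := measurable_fderiv ℝ _

theorem measurable_nd_apply (z : V) : Measurable (fun x : V => ND x z) :=
  measurable_fderiv_apply_const ℝ _ z

theorem measurable_nd₂ : Measurable (fun p : V × V => ND p.1 p.2) := by
  have h : Measurable (fun p : V × V => ((ND p.1 : V →L[ℝ] ℝ), p.2)) :=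
    (measurable_nd.comp measurable_fst).prodMk measurable_snd
  exact ContinuousLinearMap.measurable_apply₂.comp h

theorem measurable_rsign : Measurable Real.sign := by
  unfold Real.sign
  refine Measurable.ite (measurableSet_Iio) measurable_const ?_
  exact Measurable.ite (measurableSet_Ioi) measurable_const measurable_const

theorem sign_mul_self_eq (r : ℝ) : Real.sign r * r = |r| := by
  rcases lt_trichotomy r 0 with h | h | h
  · rw [Real.sign_of_neg h, abs_of_neg h]; ring
  · simp [h]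
  · rw [Real.sign_of_pos h, abs_of_pos h]; ring

theorem abs_sign_le (r : ℝ) : |Real.sign r| ≤ 1 := by
  rcases Real.sign_apply_eq r with h | h | h <;> simp [h]

variable (μ : Measure V) [μ.IsAddHaarMeasure]

theorem ae_smooth : ∀ᵐ x ∂μ, Smooth x := ae_differentiableAt_norm

end TC
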