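import Pool.Agent.Helper36.TC.Defs

/-! # Reduction of the problem to normed spaces (module Fin of MP_9e79c9_gt) -/

set_option autoImplicit false
set_option linter.unusedSectionVars false

open MeasureTheory Set Metric Module
open scoped Topology

namespace TC

theorem exists_normed_copy {E : Type} [inst : AddCommGroup E] [inst2 : Module ℝ E] (N : Seminorm ℝ E)
    (hN : ∀ x, N x = 0 → x = 0) :
    ∃ (V : Type) (_ : NormedAddCommGroup V) (_ : NormedSpace ℝ V) (e : E ≃ₗ[ℝ] V),
      ∀ x, ‖e x‖ = N x := by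
  let n : AddGroupNorm E :=
    { toFun := N
      map_zero' := map_zero N
      add_le' := map_add_le_add N
      neg' := map_neg_eq_map N
      eq_zero_of_map_eq_zero' := hN }
  let i1 : NormedAddCommGroup E := AddGroupNorm.toNormedAddCommGroup n
  let i2 : @NormedSpace ℝ E _ i1.toSeminormedAddCommGroup :=
    { toModule := inst2
      norm_smul_le := fun a b => (map_smul_eq_mul N a b).le }
  exact ⟨E, i1, i2, LinearEquiv.refl ℝ E, fun x => rfl⟩

theorem final (hmain : ∀ (V : Type) [NormedAddCommGroup V] [NormedSpace ℝ V] [FiniteDimensional ℝ V]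
    [MeasurableSpace V] [BorelSpace V] (μ : Measure V) [μ.IsAddHaarMeasure] (c : ENNReal),
    3 ≤ finrank ℝ V →
    (∀ p : V, ‖p‖ = 2 → μ (convexHull ℝ (closedBall (0:V) 1 ∪ closedBall p 1)) = c) →
    ∀ x y : V, ‖x + y‖ * ‖x + y‖ + ‖x - y‖ * ‖x - y‖ = 2 * (‖x‖ * ‖x‖ + ‖y‖ * ‖y‖)) :
    ∀ d : ℕ, 3 ≤ d →
      ∀ K : Set (EuclideanSpace ℝ (Fin d)),
        Convex ℝ K → IsCompact K → (interior K).Nonempty →
        (∀ x ∈ K, -x ∈ K) →
        (∃ c : ENNReal, ∀ p q : EuclideanSpace ℝ (Fin d),
            ((fun x => p + x) '' K ∩ (fun x => q + x) '' K).Nonempty →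
            interior ((fun x => p + x) '' K) ∩ interior ((fun x => q + x) '' K) = ∅ →
            MeasureTheory.volume
              (convexHull ℝ ((fun x => p + x) '' K ∪ (fun x => q + x) '' K)) = c) →
        ∃ f : EuclideanSpace ℝ (Fin d) ≃ᵃ[ℝ] EuclideanSpace ℝ (Fin d),
          K = f '' Metric.closedBall 0 1 := by
  intro d hd K hKconv hKc hKint hKsym ⟨c, hc⟩
  -- zero is interior
  have h0int : (0 : EuclideanSpace ℝ (Fin d)) ∈ interior K := by
    obtain ⟨x, hx⟩ := hKint
    have hnx : -x ∈ K := hKsym x (interior_subset hx)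
    have h1 := hKconv.combo_interior_self_mem_interior hx hnx (a := 1/2) (b := 1/2)
      (by norm_num) (by norm_num) (by norm_num)
    simpa using h1
  have h0 : K ∈ 𝓝 (0 : EuclideanSpace ℝ (Fin d)) := mem_interior_iff_mem_nhds.1 h0int
  have habs : Absorbent ℝ K := absorbent_nhds_zero h0
  have hbal : Balanced ℝ K := by
    intro a ha
    rintro _ ⟨x, hx, rfl⟩
    have h0K : (0 : EuclideanSpace ℝ (Fin d)) ∈ K := interior_subset h0int
    rw [Real.norm_eq_abs, abs_le] at ha
    have hcomb : a • x = ((1 + a) / 2) • x + ((1 - a) / 2) • (-x) := by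
      rw [smul_neg, ← sub_eq_add_neg, ← sub_smul]; congr 1; ring
    show a • x ∈ K
    rw [hcomb]
    exact hKconv hx (hKsym x hx) (by linarith) (by linarith) (by ring)
  let N : Seminorm ℝ (EuclideanSpace ℝ (Fin d)) := gaugeSeminorm hbal hKconv habs
  have hNle : ∀ x, N x ≤ 1 ↔ x ∈ K := by
    intro x
    have := gauge_le_one_iff_mem_closure hKconv h0 (x := x)
    rw [hKc.isClosed.closure_eq] at this
    exact this
  have hN0 : ∀ x, N x = 0 → x = 0 := by
    intro x hx
    by_contra hne
    have := (gauge_pos habs (NormedSpace.isVonNBounded_of_isBounded ℝ hKc.isBounded)).2 hne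
    exact absurd hx this.ne'
  obtain ⟨V, i1, i2, e, he⟩ := exists_normed_copy N hN0
  haveI : FiniteDimensional ℝ V := FiniteDimensional.of_surjective e.toLinearMap e.surjective
  letI : MeasurableSpace V := borel V
  haveI : BorelSpace V := ⟨rfl⟩
  let eL : EuclideanSpace ℝ (Fin d) ≃L[ℝ] V := e.toContinuousLinearEquiv
  have heL : ∀ x, eL x = e x := fun x => rfl
  let μ : Measure V := Measure.map eL volume
  haveI : μ.IsAddHaarMeasure := eL.isAddHaarMeasure_map volume
  have hfr : finrank ℝ V = d := by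
    rw [← e.finrank_eq]; simp
  haveI : Nontrivial V := by
    apply Module.nontrivial_of_finrank_pos (R := ℝ)
    omega
  have hKpre : ∀ q : EuclideanSpace ℝ (Fin d), (fun x => q + x) '' K = eL ⁻¹' (closedBall (eL q) 1) := by
    intro q
    ext x
    simp only [mem_image, mem_preimage, mem_closedBall, dist_eq_norm]
    rw [← map_sub, heL, he, hNle]
    constructor
    · rintro ⟨y, hy, rfl⟩
      simpa using hy
    · intro hx
      exact ⟨x - q, hx, by abel⟩
  have hpar := hmain V μ c (by omega) (by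
    intro p hp
    obtain ⟨q, rfl⟩ := eL.surjective p
    have h1 := hc 0 q
    rw [hKpre 0, hKpre q, map_zero] at h1
    have hint : ∀ z : V, interior (eL ⁻¹' (closedBall z 1)) = eL ⁻¹' (ball z 1) := by
      intro z
      rw [← interior_closedBall z (one_ne_zero)]
      exact (eL.toHomeomorph.preimage_interior _).symm
    rw [hint, hint] at h1
    have h2 := h1 ⟨(1/2 : ℝ) • q, by
      simp only [mem_inter_iff, mem_preimage, mem_closedBall, dist_eq_norm, map_smul, sub_zero]
      constructor
      · rw [norm_smul, hp]; norm_num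
      · have : (1/2 : ℝ) • eL q - eL q = (-(1/2) : ℝ) • eL q := by
          rw [sub_eq_iff_eq_add, neg_smul]
          nth_rewrite 3 [← one_smul ℝ (eL q)]
          rw [← sub_eq_neg_add, ← sub_smul]; norm_num
        rw [this, norm_smul, hp]; norm_num⟩ (by
      rw [← preimage_inter]
      convert preimage_empty
      rw [eq_empty_iff_forall_notMem]
      rintro z ⟨hz1, hz2⟩
      rw [mem_ball, dist_eq_norm] at hz1 hz2
      have : ‖eL q‖ ≤ ‖z - 0‖ + ‖z - eL q‖ := by
        calc ‖eL q‖ = ‖(z - 0) - (z - eL q)‖ := by congr 1; abel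
          _ ≤ _ := norm_sub_le _ _
      linarith)
    rw [← preimage_union] at h2
    have h3 : μ (convexHull ℝ (closedBall (0:V) 1 ∪ closedBall (eL q) 1)) =
        volume (eL ⁻¹' (convexHull ℝ (closedBall (0:V) 1 ∪ closedBall (eL q) 1))) := by
      show Measure.map eL volume _ = _
      exact (eL.toHomeomorph.toMeasurableEquiv).map_apply _
    rw [h3, ← h2]
    congr 1
    have h4 := eL.symm.toLinearMap.image_convexHull (closedBall (0:V) 1 ∪ closedBall (eL q) 1)
    have h5 : ∀ S : Set V, (eL.symm.toLinearMap : V → EuclideanSpace ℝ (Fin d)) '' S = eL ⁻¹' S := by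
      intro S
      ext x
      constructor
      · rintro ⟨y, hy, rfl⟩
        show eL (eL.symm y) ∈ S
        rw [eL.apply_symm_apply]; exact hy
      · intro hx
        exact ⟨eL x, hx, eL.symm_apply_apply x⟩
    rw [h5, h5] at h4
    exact h4)
  letI : InnerProductSpace ℝ V := InnerProductSpace.ofNorm ℝ hpar
  let b : OrthonormalBasis (Fin d) ℝ V := (stdOrthonormalBasis ℝ V).reindex (finCongr hfr)
  let f : EuclideanSpace ℝ (Fin d) ≃ₗ[ℝ] EuclideanSpace ℝ (Fin d) :=
    (e.trans b.repr.toLinearEquiv).symm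
  refine ⟨f.toAffineEquiv, ?_⟩
  ext x
  have hn : ‖b.repr (e x)‖ = N x := by rw [b.repr.norm_map, he]
  constructor
  · intro hx
    refine ⟨b.repr (e x), ?_, ?_⟩
    · rw [mem_closedBall, dist_zero_right, hn]
      exact (hNle x).2 hx
    · show f (b.repr (e x)) = x
      exact (e.trans b.repr.toLinearEquiv).symm_apply_apply x
  · rintro ⟨y, hy, rfl⟩
    have hy2 : b.repr (e (f y)) = y := (e.trans b.repr.toLinearEquiv).apply_symm_apply y
    show f y ∈ K
    rw [← hNle, ← he, ← b.repr.norm_map, hy2]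
    rwa [mem_closedBall, dist_zero_right] at hy

end TC
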