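import Pool.Agent.Helper36.TC.Par
import Pool.Agent.Helper42.TC.FunEq
import Pool.Agent.Helper42.TC.Ode

/-! # The parallelogram law (module Par2 of MP_9e79c9_gt) -/

set_option autoImplicit false
set_option linter.unusedSectionVars false

open MeasureTheory Set Metric Module
open scoped Topology

namespace TC

variable {V : Type*} [NormedAddCommGroup V] [NormedSpace ℝ V]

section triple
variable (hs : SymPerp V) (hu : UniqS V) {e1 e2 e3 : V} (n1 : ‖e1‖ = 1) (n2 : ‖e2‖ = 1)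
  (n3 : ‖e3‖ = 1) (h12 : SF e1 e2 = 0) (h13 : SF e1 e3 = 0) (h23 : SF e2 e3 = 0)
include hs hu n1 n2 n3 h12 h13 h23

theorem pair_phi (s : ℝ) : ‖s • e1 + e2‖ ^ 2 = 1 + s ^ 2 := by
  have z2 : e2 ≠ 0 := by intro h; simp [h] at n2
  have z3 : e3 ≠ 0 := by intro h; simp [h] at n3
  have h21 : SF e2 e1 = 0 := SF_symm hs hu z2 h12
  have h32 : SF e3 e2 = 0 := SF_symm hs hu z3 h23
  obtain ⟨α, hα, hG⟩ := fun_eq (G12 := GG e1 e2) (G23 := GG e2 e3) (G13 := GG e1 e3)
    (fun s t hs0 ht0 => GG_mul hs hu n1 n2 n3 h12 h13 h23 hs0 ht0)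
    (fun s h => GG_pos hs hu n1 n2 h12 h21 h) (fun s h => GG_neg hs hu n1 n2 h12 h21 h)
    (GG_ne hs hu n2 n3 h23 h32 one_ne_zero)
    (fun s t h h' => GG_mono hs hu n1 n2 h12 h21 h h')
    (fun s h => GG_inv hs hu n1 n2 h12 h21 h)
  have hA : ∀ s : ℝ, SF (s • e1 + e2) e1 = α * s * SF (s • e1 + e2) e2 := by
    intro s
    by_cases hs0 : s = 0
    · subst hs0; simp [h21]
    · have := hG s hs0
      unfold GG at this
      rw [div_eq_iff (pair_B_pos hs hu n1 n2 h12 h21 s).ne'] at this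
      exact this
  have hB : ∀ s : ℝ, ‖s • e1 + e2‖ = (1 + α * s ^ 2) * SF (s • e1 + e2) e2 := by
    intro s
    have := pair_sum (e := e1) (e' := e2) s
    rw [hA s] at this
    rw [← this]; ring
  refine ode (φ := fun s => ‖s • e1 + e2‖) hα ?_ ?_ ?_ ?_ ?_ s
  · intro s
    exact norm_pos_iff.2 (pair_ne n2 h21 s)
  · simp [n2]
  · intro s t
    have h1 := pair_sub (e := e1) (e' := e2) s t
    have h2 : 0 < 1 + α * s ^ 2 := by positivity
    have h3 := mul_le_mul_of_nonneg_right h1 h2.le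
    rw [hA s] at h3
    have h4 := hB s
    have h5 : (α * s * SF (s • e1 + e2) e2 * (t - s)) * (1 + α * s ^ 2) =
        α * s * (t - s) * ‖s • e1 + e2‖ := by rw [h4]; ring
    have h6 : ‖s • e1 + e2‖ * (1 + α * s * t) = ‖s • e1 + e2‖ * (1 + α * s ^ 2) +
      α * s * (t - s) * ‖s • e1 + e2‖ := by ring
    show ‖s • e1 + e2‖ * (1 + α * s * t) ≤ ‖t • e1 + e2‖ * (1 + α * s ^ 2)
    rw [h6, ← h5]
    linarith
  · intro s
    have := norm_add_le (s • e1) e2
    rw [norm_smul, n1, n2, Real.norm_eq_abs, mul_one] at this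
    exact this
  · intro s
    have := norm_sub_le (s • e1 + e2) e2
    rw [add_sub_cancel_right, norm_smul, n1, n2, Real.norm_eq_abs, mul_one] at this
    show |s| - 1 ≤ ‖s • e1 + e2‖
    linarith

theorem pair_law (a b : ℝ) : ‖a • e1 + b • e2‖ ^ 2 = a ^ 2 + b ^ 2 := by
  by_cases hb : b = 0
  · subst hb; simp [norm_smul, n1]
  · have h1 : a • e1 + b • e2 = b • ((a / b) • e1 + e2) := by
      rw [smul_add, smul_smul]; congr 2; field_simp
    rw [h1, norm_smul, mul_pow, pair_phi hs hu n1 n2 n3 h12 h13 h23, Real.norm_eq_abs, sq_abs]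
    field_simp
    ring

end triple

/-- a unit vector in the common kernel of two functionals. -/
theorem exists_unit_ker [FiniteDimensional ℝ V] (hd : 3 ≤ finrank ℝ V) (f g : V →L[ℝ] ℝ) :
    ∃ e : V, ‖e‖ = 1 ∧ f e = 0 ∧ g e = 0 := by
  let T : V →ₗ[ℝ] (ℝ × ℝ) := f.toLinearMap.prod g.toLinearMap
  have h1 : 0 < finrank ℝ (LinearMap.ker T) := by
    have h2 := LinearMap.finrank_range_add_finrank_ker T
    have h3 : finrank ℝ (LinearMap.range T) ≤ 2 := by
      have := Submodule.finrank_le (LinearMap.range T)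
      simpa using this
    omega
  haveI := Module.nontrivial_of_finrank_pos (R := ℝ) h1
  obtain ⟨⟨v, hv⟩, hv0⟩ := exists_ne (0 : LinearMap.ker T)
  have hv1 : v ≠ 0 := by intro h; apply hv0; ext; simpa using h
  have hT : T v = 0 := hv
  have hf : f v = 0 := congrArg Prod.fst hT
  have hg : g v = 0 := congrArg Prod.snd hT
  refine ⟨(‖v‖⁻¹) • v, ?_, by simp [hf], by simp [hg]⟩
  rw [norm_smul, norm_inv, norm_norm]
  exact inv_mul_cancel₀ (norm_ne_zero_iff.2 hv1)

theorem parallelogram [FiniteDimensional ℝ V] (hd : 3 ≤ finrank ℝ V) (hs : SymPerp V)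
    (hu : ∀ x : V, x ≠ 0 → ∀ f g : V →L[ℝ] ℝ, Supp f x → Supp g x → f = g) (x y : V) :
    ‖x + y‖ * ‖x + y‖ + ‖x - y‖ * ‖x - y‖ = 2 * (‖x‖ * ‖x‖ + ‖y‖ * ‖y‖) := by
  have hU : UniqS V := hu
  by_cases hx : x = 0
  · subst hx; simp; ring
  set e1 : V := ‖x‖⁻¹ • x with he1
  have n1 : ‖e1‖ = 1 := by
    rw [he1, norm_smul, norm_inv, norm_norm]
    exact inv_mul_cancel₀ (norm_ne_zero_iff.2 hx)
  have hxe : x = ‖x‖ • e1 := by
    rw [he1, smul_smul, mul_inv_cancel₀ (norm_ne_zero_iff.2 hx), one_smul]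
  set w : V := y - SF e1 y • e1 with hw
  have hw1 : SF e1 w = 0 := by rw [hw]; simp [SF_self, n1]
  by_cases hw0 : w = 0
  · have hy : y = SF e1 y • e1 := by rw [← sub_eq_zero]; exact hw0
    set c := SF e1 y with hc
    rw [hxe, hy, ← add_smul, ← sub_smul]
    simp only [norm_smul, n1, mul_one, Real.norm_eq_abs, abs_norm, abs_mul_abs_self]
    ring
  · have hw2 : ‖w‖ ≠ 0 := norm_ne_zero_iff.2 hw0
    set e2 : V := ‖w‖⁻¹ • w with he2
    have n2 : ‖e2‖ = 1 := by
      rw [he2, norm_smul, norm_inv, norm_norm]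
      exact inv_mul_cancel₀ hw2
    have h12 : SF e1 e2 = 0 := by rw [he2]; simp [hw1]
    obtain ⟨e3, n3, h13, h23⟩ := exists_unit_ker hd (SF e1) (SF e2)
    have hye : y = SF e1 y • e1 + ‖w‖ • e2 := by
      rw [he2, smul_inv_smul₀ hw2, hw]; abel
    have law := pair_law hs hU n1 n2 n3 h12 h13 h23
    set c := SF e1 y with hc
    set m := ‖w‖ with hm
    set r := ‖x‖ with hr
    have e_add : x + y = (r + c) • e1 + m • e2 := by
      rw [hye]; nth_rewrite 1 [hxe]; rw [add_smul]; abel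
    have e_sub : x - y = (r - c) • e1 + (-m) • e2 := by
      rw [hye]; nth_rewrite 1 [hxe]; rw [sub_smul, neg_smul]; abel
    have l1 := law (r + c) m
    have l2 := law (r - c) (-m)
    have l3 := law c m
    rw [← e_add] at l1
    rw [← e_sub] at l2
    rw [← hye] at l3
    nlinarith [l1, l2, l3]

end TC
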