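import Pool.Agent.Helper92.TC.HullEq
import Pool.Agent.Helper92.TC.HullLin
import Pool.Agent.Helper92.TC.Trans
import Pool.Agent.Helper42.TC.Layer
import Pool.Agent.Helper43.TC.Lim
import Pool.Agent.Helper83.TC.Opt
import Pool.Agent.Helper83.TC.Loc
import Pool.Agent.Helper8.TC.Fub
import Pool.Agent.Helper23.TC.SymDense
import Pool.Agent.Helper12.TC.Uniq
import Pool.Agent.Helper36.TC.Par2
import Pool.Agent.Helper36.TC.Fin

/-! # Assembly of the proof of MP_9e79c9_gt -/

set_option autoImplicit false
set_option linter.unusedSectionVars false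

open MeasureTheory Set Metric Module
open scoped Topology

namespace TC

variable {V : Type*} [NormedAddCommGroup V] [NormedSpace ℝ V]

/-- A finite-dimensional normed space of dimension at least three whose unit ball has the
translative constant volume property (for one additive Haar measure) is Euclidean. -/
theorem main_normed [FiniteDimensional ℝ V] [MeasurableSpace V] [BorelSpace V]
    (hd : 3 ≤ finrank ℝ V) (μ : Measure V) [μ.IsAddHaarMeasure] {c : ENNReal}
    (h : ∀ p : V, ‖p‖ = 2 → μ (convexHull ℝ (closedBall (0:V) 1 ∪ closedBall p 1)) = c) (x y : V) :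
    ‖x + y‖ * ‖x + y‖ + ‖x - y‖ * ‖x - y‖ = 2 * (‖x‖ * ‖x‖ + ‖y‖ * ‖y‖) := by
  haveI : Nontrivial V := by
    apply Module.nontrivial_of_finrank_pos (R := ℝ)
    omega
  simp only [hull_eq] at h
  obtain ⟨k, hk⟩ := hull_lin μ h
  have h2 := layer μ hk
  have h3 := lim_vol μ h2
  have h4 : ∀ u : V, Smooth u → ∀ z : V,
      ∫ x in closedBall (0:V) 1, Real.sign (ND x u) * ND x z ∂μ = (2 * (k / finrank ℝ V)) * ND u z :=
    fun u hu z => opt μ h3 hu z
  have h5 : ∀ (w : V →L[ℝ] ℝ) (a : V), w a = 0 →
      ∫ x in closedBall (0:V) 1, Real.sign (w x) * ND x a ∂μ = 0 :=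
    fun w a hw => trans_inv μ w hw
  have h6 := fub μ h3 h4 h5
  have h7 : SymPerp V := sym_of_dense (fun p ε hε => loc μ h6 p hε)
  exact parallelogram hd h7 (fun x hx f g hf hg => supp_unique hd h7 hx hf hg) x y

theorem all :
    ∀ d : ℕ, 3 ≤ d →
      ∀ K : Set (EuclideanSpace ℝ (Fin d)),
        Convex ℝ K → IsCompact K → (interior K).Nonempty →
        (∀ x ∈ K, -x ∈ K) →
        (∃ c : ENNReal, ∀ p q : EuclideanSpace ℝ (Fin d),
            ((fun x => p + x) '' K ∩ (fun x => q + x) '' K).Nonempty →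
            interior ((fun x => p + x) '' K) ∩ interior ((fun x => q + x) '' K) = ∅ →
            MeasureTheory.volume
              (convexHull ℝ ((fun x => p + x) '' K ∪ (fun x => q + x) '' K)) = c) →
        ∃ f : EuclideanSpace ℝ (Fin d) ≃ᵃ[ℝ] EuclideanSpace ℝ (Fin d),
          K = f '' Metric.closedBall 0 1 :=
  final (fun V _ _ _ _ _ μ _ c hd h => main_normed hd μ h)

end TC
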