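import Pool.Agent.Helper36.TC.Defs

/-! # Smooth spaces with symmetric orthogonality in dimension at least three are Euclidean
(module Par of MP_9e79c9_gt) -/

set_option autoImplicit false
set_option linter.unusedSectionVars false

open MeasureTheory Set Metric Module
open scoped Topology

namespace TC

variable {V : Type*} [NormedAddCommGroup V] [NormedSpace ℝ V]

/-- a support functional at `x`. -/
noncomputable def SF (x : V) : V →L[ℝ] ℝ := (exists_supp x).choose

theorem SF_supp (x : V) : Supp (SF x) x := (exists_supp x).choose_spec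

theorem SF_self (x : V) : SF x x = ‖x‖ := (SF_supp x).2

theorem SF_le (x z : V) : SF x z ≤ ‖z‖ := (SF_supp x).le z

/-- support functionals are unique. -/
def UniqS (V : Type*) [NormedAddCommGroup V] [NormedSpace ℝ V] : Prop :=
  ∀ x : V, x ≠ 0 → ∀ f g : V →L[ℝ] ℝ, Supp f x → Supp g x → f = g

section
variable (hs : SymPerp V) (hu : UniqS V)
include hs hu

omit hs in
theorem SF_pos_smul {x : V} (hx : x ≠ 0) {t : ℝ} (ht : 0 < t) : SF (t • x) = SF x := by
  apply hu x hx _ _ _ (SF_supp x)
  refine ⟨(SF_supp (t • x)).1, ?_⟩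
  have := SF_self (t • x)
  rw [map_smul, norm_smul, Real.norm_eq_abs, abs_of_pos ht, smul_eq_mul] at this
  exact mul_left_cancel₀ ht.ne' this

omit hs in
theorem SF_neg {x : V} (hx : x ≠ 0) : SF (-x) = - SF x := by
  have h : - SF (-x) = SF x := by
    apply hu x hx _ _ _ (SF_supp x)
    refine ⟨by rw [norm_neg]; exact (SF_supp (-x)).1, ?_⟩
    have := SF_self (-x)
    rw [map_neg, norm_neg] at this
    simpa using this
  rw [← h, neg_neg]

omit hs in
theorem SF_perp {x y : V} (hx : x ≠ 0) (h : Perp x y) : SF x y = 0 := by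
  obtain ⟨f, hf, hfy⟩ := h.exists_supp
  rw [hu x hx _ _ (SF_supp x) hf]
  exact hfy

theorem SF_symm {x y : V} (hy : y ≠ 0) (h : SF x y = 0) : SF y x = 0 :=
  SF_perp hu hy (hs x y ((SF_supp x).perp h))

omit hs in
theorem SF_ratio {x : V} (hx : x ≠ 0) {t : ℝ} (ht : t ≠ 0) (a b : V) :
    SF (t • x) a / SF (t • x) b = SF x a / SF x b := by
  rcases lt_or_gt_of_ne ht with h | h
  · have h1 : t • x = -((-t) • x) := by simp
    have hx2 : (-t) • x ≠ 0 := smul_ne_zero (by simpa using ht) hx
    rw [h1, SF_neg hu hx2, SF_pos_smul hu hx (by linarith)]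
    simp [neg_div_neg_eq]
  · rw [SF_pos_smul hu hx h]

/-- the cross relation. -/
theorem SF_cross {e e' e'' : V} (he : ‖e‖ = 1) (he' : ‖e'‖ = 1) (he'' : ‖e''‖ = 1)
    (h1 : SF e e' = 0) (h2 : SF e'' e = 0) (h3 : SF e'' e' = 0) (a b c : ℝ)
    (hab : a • e + b • e' ≠ 0) (hne : a • e + b • e' + c • e'' ≠ 0) :
    SF (a • e + b • e' + c • e'') e * SF (a • e + b • e') e' =
      SF (a • e + b • e' + c • e'') e' * SF (a • e + b • e') e := by
  have hez : e ≠ 0 := by intro h; simp [h] at he
  have hez' : e' ≠ 0 := by intro h; simp [h] at he'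
  have hez'' : e'' ≠ 0 := by intro h; simp [h] at he''
  have h1' : SF e' e = 0 := SF_symm hs hu hez' h1
  set u' : V := a • e + b • e' with hu'
  set u : V := u' + c • e'' with hudef
  set z : V := SF u' e' • e - SF u' e • e' with hz
  have hz1 : SF u' z = 0 := by rw [hz]; simp; ring
  have hz0 : z ≠ 0 := by
    intro h0
    have ha : SF u' e' = 0 := by
      have := congrArg (SF e) h0
      rw [hz] at this
      simp [SF_self, he, h1] at this
      exact this
    have hb : SF u' e = 0 := by
      have := congrArg (SF e') h0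
      rw [hz] at this
      simp [SF_self, he', h1'] at this
      exact this
    have := SF_self u'
    rw [hu'] at this
    rw [map_add, map_smul, map_smul, ← hu', ha, hb] at this
    simp at this
    exact hab (norm_eq_zero.1 this.symm)
  have hz2 : SF z u' = 0 := SF_symm hs hu hz0 hz1
  have hz3 : SF z e'' = 0 := by
    apply SF_symm hs hu hz0
    rw [hz]; simp [h2, h3]
  have hz4 : SF z u = 0 := by rw [hudef]; simp [hz2, hz3]
  have hz5 : SF u z = 0 := SF_symm hs hu hne hz4
  rw [hz] at hz5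
  simp at hz5
  linarith

end

/-- the ratio function. -/
noncomputable def GG (e e' : V) (s : ℝ) : ℝ := SF (s • e + e') e / SF (s • e + e') e'

section pair
variable (hs : SymPerp V) (hu : UniqS V) {e e' : V} (he : ‖e‖ = 1) (he' : ‖e'‖ = 1)
  (h1 : SF e e' = 0) (h2 : SF e' e = 0)
include hs hu he he' h1 h2

omit hs hu h1 he in
theorem pair_ne (s : ℝ) : s • e + e' ≠ 0 := by
  intro h
  have := congrArg (SF e') h
  simp [SF_self, he', h2] at this

omit hs hu he he' h1 h2 in
theorem pair_sum (s : ℝ) : s * SF (s • e + e') e + SF (s • e + e') e' = ‖s • e + e'‖ := by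
  have := SF_self (s • e + e')
  rw [map_add, map_smul, smul_eq_mul] at this
  exact this

theorem pair_B_pos (s : ℝ) : 0 < SF (s • e + e') e' := by
  have hez' : e' ≠ 0 := by intro h; simp [h] at he'
  have hge : 0 ≤ SF (s • e + e') e' := by
    have h3 : ‖s • e‖ ≤ ‖s • e + e'‖ := by
      have hp : Perp (s • e) e' := ((SF_supp e).perp h1).smul_left s
      simpa using hp 1
    have h4 := SF_le (s • e + e') (s • e)
    rw [map_smul, smul_eq_mul] at h4
    have := pair_sum (e := e) (e' := e') s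
    linarith
  refine lt_of_le_of_ne hge fun h0 => ?_
  have h5 : SF e' (s • e + e') = 0 := SF_symm hs hu hez' h0.symm
  simp [SF_self, he', h2] at h5

theorem pair_A_pos {s : ℝ} (hs0 : s ≠ 0) : 0 < s * SF (s • e + e') e := by
  have hez : e ≠ 0 := by intro h; simp [h] at he
  have hge : 0 ≤ s * SF (s • e + e') e := by
    have h3 : ‖e'‖ ≤ ‖e' + s • e‖ := ((SF_supp e').perp h2) s
    have h4 := SF_le (s • e + e') e'
    have := pair_sum (e := e) (e' := e') s
    rw [add_comm e' (s • e)] at h3
    linarith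
  refine lt_of_le_of_ne hge fun h0 => ?_
  have h0' : SF (s • e + e') e = 0 := by
    rcases mul_eq_zero.1 h0.symm with h | h
    · exact absurd h hs0
    · exact h
  have h5 : SF e (s • e + e') = 0 := SF_symm hs hu hez h0'
  simp [SF_self, he, h1] at h5
  exact hs0 h5

omit hs hu he he' h1 h2 in
theorem pair_sub (s t : ℝ) :
    ‖s • e + e'‖ + SF (s • e + e') e * (t - s) ≤ ‖t • e + e'‖ := by
  have h3 := SF_le (s • e + e') (t • e + e')
  have h4 : t • e + e' = (s • e + e') + (t - s) • e := by rw [sub_smul]; abel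
  rw [h4, map_add, map_smul, SF_self, smul_eq_mul] at h3
  rw [h4]
  linarith

omit hs hu he he' h1 h2 in
theorem pair_A_mono {s t : ℝ} (hst : s ≤ t) : SF (s • e + e') e ≤ SF (t • e + e') e := by
  rcases hst.eq_or_lt with rfl | hlt
  · exact le_rfl
  have h3 := pair_sub (e := e) (e' := e') s t
  have h4 := pair_sub (e := e) (e' := e') t s
  nlinarith

theorem GG_pos {s : ℝ} (hs0 : 0 < s) : 0 < GG e e' s := by
  apply div_pos _ (pair_B_pos hs hu he he' h1 h2 s)
  have := pair_A_pos hs hu he he' h1 h2 hs0.ne'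
  exact (mul_pos_iff_of_pos_left hs0).1 this

theorem GG_neg {s : ℝ} (hs0 : s < 0) : GG e e' s < 0 := by
  apply div_neg_of_neg_of_pos _ (pair_B_pos hs hu he he' h1 h2 s)
  have := pair_A_pos hs hu he he' h1 h2 hs0.ne
  by_contra hcon
  push Not at hcon
  nlinarith

theorem GG_mono {s t : ℝ} (hs0 : 0 < s) (hst : s ≤ t) : GG e e' s ≤ GG e e' t := by
  have hA := pair_A_mono (e := e) (e' := e') hst
  have hB1 := pair_B_pos hs hu he he' h1 h2 s
  have hB2 := pair_B_pos hs hu he he' h1 h2 t
  have hBm : SF (t • e + e') e' ≤ SF (s • e + e') e' := by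
    have h3 := pair_sum (e := e) (e' := e') s
    have h4 := pair_sum (e := e) (e' := e') t
    have h5 := pair_sub (e := e) (e' := e') t s
    nlinarith
  have hA0 : 0 < SF (s • e + e') e := by
    have := pair_A_pos hs hu he he' h1 h2 hs0.ne'
    exact (mul_pos_iff_of_pos_left hs0).1 this
  unfold GG
  gcongr
  exact hA0.le.trans hA

theorem GG_ne {s : ℝ} (hs0 : s ≠ 0) : GG e e' s ≠ 0 := by
  rcases lt_or_gt_of_ne hs0 with h | h
  · exact (GG_neg hs hu he he' h1 h2 h).ne
  · exact (GG_pos hs hu he he' h1 h2 h).ne'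

theorem GG_inv {s : ℝ} (hs0 : s ≠ 0) : GG e e' (-(1 / GG e e' s)) = -(1 / s) := by
  have hez' : e' ≠ 0 := by intro h; simp [h] at he'
  set u : V := s • e + e' with hudef
  set A : ℝ := SF u e with hA
  set B : ℝ := SF u e' with hB
  have hB0 : 0 < B := pair_B_pos hs hu he he' h1 h2 s
  have hA0 : A ≠ 0 := by
    have := pair_A_pos hs hu he he' h1 h2 hs0
    intro h
    rw [← hudef, ← hA, h] at this
    simp at this
  have hG : GG e e' s = A / B := rfl
  set z : V := B • e - A • e' with hz
  have huz : SF u z = 0 := by rw [hz]; simp [← hA, ← hB]; ring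
  have hzz : z = (-A) • ((-(B / A)) • e + e') := by
    rw [hz, smul_add, smul_smul, neg_smul, sub_eq_add_neg]
    congr 2
    field_simp
  have hw0 : (-(B / A)) • e + e' ≠ 0 := pair_ne he' h2 _
  have hz0 : z ≠ 0 := by rw [hzz]; exact smul_ne_zero (neg_ne_zero.2 hA0) hw0
  have hzu : SF z u = 0 := SF_symm hs hu hz0 huz
  have hrat := SF_ratio hu hw0 (neg_ne_zero.2 hA0) e e'
  rw [← hzz] at hrat
  have hval : -(1 / GG e e' s) = -(B / A) := by rw [hG, one_div_div]
  rw [hval]
  have hGG : GG e e' (-(B / A)) = SF z e / SF z e' := by rw [hrat]; rfl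
  rw [hGG]
  rw [hudef] at hzu
  simp at hzu
  have hze' : SF z e' ≠ 0 := by
    intro h0
    have h7 : SF z e = 0 := by
      rw [h0] at hzu
      simp at hzu
      rcases hzu with h | h
      · exact absurd h hs0
      · exact h
    have h8 := SF_self z
    nth_rewrite 2 [hz] at h8
    rw [map_sub, map_smul, map_smul, h0, h7] at h8
    simp at h8
    exact hz0 (norm_eq_zero.1 h8.symm)
  field_simp
  linarith

end pair

section triple
variable (hs : SymPerp V) (hu : UniqS V) {e1 e2 e3 : V} (n1 : ‖e1‖ = 1) (n2 : ‖e2‖ = 1)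
  (n3 : ‖e3‖ = 1) (h12 : SF e1 e2 = 0) (h13 : SF e1 e3 = 0) (h23 : SF e2 e3 = 0)
include hs hu n1 n2 n3 h12 h13 h23

theorem GG_mul {s t : ℝ} (hs0 : s ≠ 0) (ht0 : t ≠ 0) :
    GG e1 e2 s * GG e2 e3 t = GG e1 e3 (s * t) := by
  have z1 : e1 ≠ 0 := by intro h; simp [h] at n1
  have z2 : e2 ≠ 0 := by intro h; simp [h] at n2
  have z3 : e3 ≠ 0 := by intro h; simp [h] at n3
  have h21 : SF e2 e1 = 0 := SF_symm hs hu z2 h12
  have h31 : SF e3 e1 = 0 := SF_symm hs hu z3 h13
  have h32 : SF e3 e2 = 0 := SF_symm hs hu z3 h23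
  set u : V := (s * t) • e1 + t • e2 + e3 with hudef
  have hu0 : u ≠ 0 := by
    intro h
    have := congrArg (SF e3) h
    rw [hudef] at this
    simp [SF_self, n3, h31, h32] at this
  have hc1 : SF e1 u = s * t := by rw [hudef]; simp [SF_self, n1, h12, h13]
  have hc2 : SF e2 u = t := by rw [hudef]; simp [SF_self, n2, h21, h23]
  have hc3 : SF e3 u = 1 := by rw [hudef]; simp [SF_self, n3, h31, h32]
  have hA2 : SF u e2 ≠ 0 := by
    intro h
    have := SF_symm hs hu z2 h
    rw [hc2] at this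
    exact ht0 this
  have hA3 : SF u e3 ≠ 0 := by
    intro h
    have := SF_symm hs hu z3 h
    rw [hc3] at this
    norm_num at this
  have r12 : GG e1 e2 s = SF u e1 / SF u e2 := by
    have h0 : (s * t) • e1 + t • e2 ≠ 0 := by
      intro h
      have := congrArg (SF e2) h
      simp [SF_self, n2, h21] at this
      exact ht0 this
    have hx := SF_cross hs hu n1 n2 n3 h12 h31 h32 (s * t) t 1 h0 (by simpa using hu0)
    rw [one_smul, ← hudef] at hx
    have hr : (s * t) • e1 + t • e2 = t • (s • e1 + e2) := by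
      rw [smul_add, smul_smul, mul_comm]
    have hw0 : s • e1 + e2 ≠ 0 := pair_ne n2 h21 s
    have h2 := SF_ratio hu hw0 ht0 e1 e2
    have hB : SF (t • (s • e1 + e2)) e2 ≠ 0 := by
      intro h
      have h4 := SF_symm hs hu z2 h
      simp [SF_self, n2, h21] at h4
      exact ht0 h4
    rw [hr] at hx
    unfold GG
    rw [← h2, div_eq_div_iff hB hA2]
    linarith
  have r23 : GG e2 e3 t = SF u e2 / SF u e3 := by
    have h0 : t • e2 + e3 ≠ 0 := pair_ne n3 h32 t
    have hue : t • e2 + (1:ℝ) • e3 + (s * t) • e1 = u := by rw [hudef, one_smul]; abel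
    have hx := SF_cross hs hu n2 n3 n1 h23 h12 h13 t 1 (s * t) (by simpa using h0)
      (by rw [hue]; exact hu0)
    rw [hue, one_smul] at hx
    have hB : SF (t • e2 + e3) e3 ≠ 0 := (pair_B_pos hs hu n2 n3 h23 h32 t).ne'
    unfold GG
    rw [div_eq_div_iff hB hA3]
    linarith
  have r13 : GG e1 e3 (s * t) = SF u e1 / SF u e3 := by
    have h0 : (s * t) • e1 + e3 ≠ 0 := pair_ne n3 h31 (s * t)
    have hue : (s * t) • e1 + (1:ℝ) • e3 + t • e2 = u := by rw [hudef, one_smul]; abel
    have hx := SF_cross hs hu n1 n3 n2 h13 h21 h23 (s * t) 1 t (by simpa using h0)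
      (by rw [hue]; exact hu0)
    rw [hue, one_smul] at hx
    have hB : SF ((s * t) • e1 + e3) e3 ≠ 0 := (pair_B_pos hs hu n1 n3 h13 h31 (s * t)).ne'
    unfold GG
    rw [div_eq_div_iff hB hA3]
    linarith
  rw [r12, r23, r13]
  field_simp

end triple

end TC
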